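import Pool.Agent.H46.Cur.Data

/-!
Checkers for the data, with their soundness proofs.
-/

namespace Pool.Agent.H46.Cur

/-- Checks a decision tree. -/
def Tree.check : Tree → List ℕ → List ℕ → Bool
  | .fac k, _, exc => (List.range 19).all fun n => exc.contains n || (facets.getD k []).contains n
  | .non k, inc, _ => (nonfaces.getD k []).all (fun n => inc.contains n) &&
      decide (k < nonfaces.length)
  | .br v y n, inc, exc => y.check (v :: inc) exc && n.check inc (v :: exc)

lemma tree_ok : tree.check [] [] = true := by decide +kernel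

lemma Tree.sound (P : ℕ → Prop) (hP : ∀ n, P n → n < 19)
    (hN : ∀ N ∈ nonfaces, ¬ ∀ n ∈ N, P n) :
    ∀ (t : Tree) (inc exc : List ℕ), t.check inc exc = true → (∀ n ∈ inc, P n) →
      (∀ n ∈ exc, ¬ P n) → ∃ F ∈ facets, ∀ n, P n → n ∈ F
  | .fac k, inc, exc, h, hi, he => by
      simp only [Tree.check, List.all_eq_true, List.mem_range, Bool.or_eq_true,
        List.contains_eq_mem, decide_eq_true_eq] at h
      have hsub : ∀ n, P n → n ∈ facets.getD k [] := by
        intro n hn
        rcases h n (hP n hn) with h' | h'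
        · exact absurd hn (he n h')
        · exact h'
      by_cases hk : k < facets.length
      · refine ⟨facets.getD k [], ?_, hsub⟩
        rw [List.getD_eq_getElem _ _ hk]
        exact List.getElem_mem hk
      · refine ⟨facets.getD 0 [], by decide, ?_⟩
        intro n hn
        have := hsub n hn
        rw [List.getD_eq_default _ _ (by omega)] at this
        simp at this
  | .non k, inc, exc, h, hi, he => by
      simp only [Tree.check, List.all_eq_true, Bool.and_eq_true, List.contains_eq_mem,
        decide_eq_true_eq] at h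
      exfalso
      refine hN (nonfaces.getD k []) ?_ ?_
      · rw [List.getD_eq_getElem _ _ h.2]
        exact List.getElem_mem h.2
      · intro n hn
        exact hi n (h.1 n hn)
  | .br v y n, inc, exc, h, hi, he => by
      simp only [Tree.check, Bool.and_eq_true] at h
      by_cases hv : P v
      · refine Tree.sound P hP hN y (v :: inc) exc h.1 ?_ he
        intro m hm
        rcases List.mem_cons.mp hm with rfl | hm
        · exact hv
        · exact hi m hm
      · refine Tree.sound P hP hN n inc (v :: exc) h.2 hi ?_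
        intro m hm
        rcases List.mem_cons.mp hm with rfl | hm
        · exact hv
        · exact he m hm

/-- A set of indices containing no nonface is contained in a facet. -/
lemma comb (P : ℕ → Prop) (hP : ∀ n, P n → n < 19) (hN : ∀ N ∈ nonfaces, ¬ ∀ n ∈ N, P n) :
    ∃ F ∈ facets, ∀ n, P n → n ∈ F :=
  Tree.sound P hP hN tree [] [] tree_ok (by simp) (by simp)

/-- The half-plane `h` contains the point `(x, y)`. -/
def holds (h : ℤ × ℤ × ℤ) (x y : ℝ) : Prop := (h.1 : ℝ) * x + (h.2.1 : ℝ) * y < (h.2.2 : ℝ)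

/-- `(x, y)` lies in the open polygon with number `n` of the list `P`. -/
def inPoly (P : List (List (ℤ × ℤ × ℤ))) (n : ℕ) (x y : ℝ) : Prop :=
  ∀ h ∈ P.getD n [], holds h x y

/-- Checks that a point lies in the polygons with the given numbers. -/
def witOK (P : List (List (ℤ × ℤ × ℤ))) (F : List ℕ) (w : ℤ × ℤ) : Bool :=
  F.all fun n => (P.getD n []).all fun h => decide (h.1 * w.1 + h.2.1 * w.2 < h.2.2)

lemma witOK_sound {P : List (List (ℤ × ℤ × ℤ))} {F : List ℕ} {w : ℤ × ℤ}
    (h : witOK P F w = true) : ∀ n ∈ F, inPoly P n w.1 w.2 := by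
  intro n hn k hk
  simp only [witOK, List.all_eq_true, decide_eq_true_eq] at h
  have := h n hn k hk
  show (k.1 : ℝ) * (w.1 : ℝ) + (k.2.1 : ℝ) * (w.2 : ℝ) < (k.2.2 : ℝ)
  exact_mod_cast this

/-- Checks a certificate that the polygons with the given numbers have no common point. -/
def certOK (P : List (List (ℤ × ℤ × ℤ))) (N : List ℕ) (c : List (ℕ × ℤ × ℤ × ℤ)) : Bool :=
  (c.all fun t => N.any fun n => (P.getD n []).contains t.2) &&
  decide ((c.map fun t => (t.1 : ℤ) * t.2.1).sum = 0) &&
  decide ((c.map fun t => (t.1 : ℤ) * t.2.2.1).sum = 0) &&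
  decide ((c.map fun t => (t.1 : ℤ) * t.2.2.2).sum ≤ 0) &&
  decide (0 < (c.map fun t => (t.1 : ℤ)).sum)

lemma cert_aux (x y : ℝ) : ∀ c : List (ℕ × ℤ × ℤ × ℤ), (∀ t ∈ c, holds t.2 x y) →
    ((((c.map fun t => (t.1 : ℤ) * t.2.1).sum : ℤ) : ℝ) * x +
      (((c.map fun t => (t.1 : ℤ) * t.2.2.1).sum : ℤ) : ℝ) * y ≤
      (((c.map fun t => (t.1 : ℤ) * t.2.2.2).sum : ℤ) : ℝ)) ∧
    (0 < (c.map fun t => (t.1 : ℤ)).sum →
      (((c.map fun t => (t.1 : ℤ) * t.2.1).sum : ℤ) : ℝ) * x +
      (((c.map fun t => (t.1 : ℤ) * t.2.2.1).sum : ℤ) : ℝ) * y <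
      (((c.map fun t => (t.1 : ℤ) * t.2.2.2).sum : ℤ) : ℝ))
  | [], _ => by simp
  | t :: c, h => by
      have ih := cert_aux x y c (fun s hs => h s (List.mem_cons_of_mem _ hs))
      have ht : holds t.2 x y := h t (List.mem_cons_self ..)
      simp only [holds] at ht
      simp only [List.map_cons, List.sum_cons]
      push_cast
      push_cast at ih
      have ht0 : (0:ℝ) ≤ (t.1 : ℝ) := Nat.cast_nonneg _
      have h1 : (t.1 : ℝ) * (t.2.1 * x + t.2.2.1 * y) ≤ (t.1 : ℝ) * t.2.2.2 :=
        mul_le_mul_of_nonneg_left ht.le ht0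
      refine ⟨by nlinarith [ih.1], ?_⟩
      intro hpos
      rcases Nat.eq_zero_or_pos t.1 with h0 | h0
      · have := ih.2 (by rw [h0] at hpos; simpa using hpos)
        nlinarith
      · have h0' : (0:ℝ) < (t.1 : ℝ) := by exact_mod_cast h0
        have h2 : (t.1 : ℝ) * (t.2.1 * x + t.2.2.1 * y) < (t.1 : ℝ) * t.2.2.2 :=
          mul_lt_mul_of_pos_left ht h0'
        nlinarith [ih.1]

lemma certOK_sound {P : List (List (ℤ × ℤ × ℤ))} {N : List ℕ} {c : List (ℕ × ℤ × ℤ × ℤ)}
    (h : certOK P N c = true) (x y : ℝ) : ¬ ∀ n ∈ N, inPoly P n x y := by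
  intro hall
  simp only [certOK, Bool.and_eq_true, List.all_eq_true, List.any_eq_true, List.contains_eq_mem,
    decide_eq_true_eq] at h
  obtain ⟨⟨⟨⟨h1, h2⟩, h3⟩, h4⟩, h5⟩ := h
  have := (cert_aux x y c (fun t ht => by
    obtain ⟨n, hn, hm⟩ := h1 t ht
    exact hall n hn t.2 hm)).2 h5
  rw [h2, h3] at this
  have h4' : ((((c.map fun t => (t.1 : ℤ) * t.2.2.2).sum : ℤ) : ℝ)) ≤ 0 := by exact_mod_cast h4
  simp only [Int.cast_zero, zero_mul, add_zero] at this
  linarith

/-- Pairs a list of facets with a list of points and checks them all. -/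
def witsOK (P : List (List (ℤ × ℤ × ℤ))) (L : List (List ℕ)) (W : List (ℤ × ℤ)) : Bool :=
  decide (L.length ≤ W.length) && (L.zip W).all fun t => witOK P t.1 t.2

lemma witsOK_sound {P : List (List (ℤ × ℤ × ℤ))} {L : List (List ℕ)} {W : List (ℤ × ℤ)}
    (h : witsOK P L W = true) {F : List ℕ} (hF : F ∈ L) :
    ∃ w : ℤ × ℤ, ∀ n ∈ F, inPoly P n w.1 w.2 := by
  simp only [witsOK, Bool.and_eq_true, List.all_eq_true, decide_eq_true_eq] at h
  obtain ⟨k, hk, rfl⟩ := List.getElem_of_mem hF
  have hk' : k < (L.zip W).length := by rw [List.length_zip]; omega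
  have hm : (L.zip W)[k] ∈ L.zip W := List.getElem_mem hk'
  have := h.2 _ hm
  rw [List.getElem_zip] at this
  exact ⟨_, witOK_sound this⟩

/-- Pairs a list of nonfaces with a list of certificates and checks them all. -/
def certsOK (P : List (List (ℤ × ℤ × ℤ))) (L : List (List ℕ))
    (C : List (List (ℕ × ℤ × ℤ × ℤ))) : Bool :=
  decide (L.length ≤ C.length) && (L.zip C).all fun t => certOK P t.1 t.2

lemma certsOK_sound {P : List (List (ℤ × ℤ × ℤ))} {L : List (List ℕ)}
    {C : List (List (ℕ × ℤ × ℤ × ℤ))}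
    (h : certsOK P L C = true) {N : List ℕ} (hN : N ∈ L) (x y : ℝ) :
    ¬ ∀ n ∈ N, inPoly P n x y := by
  simp only [certsOK, Bool.and_eq_true, List.all_eq_true, decide_eq_true_eq] at h
  obtain ⟨k, hk, rfl⟩ := List.getElem_of_mem hN
  have hk' : k < (L.zip C).length := by rw [List.length_zip]; omega
  have hm : (L.zip C)[k] ∈ L.zip C := List.getElem_mem hk'
  have := h.2 _ hm
  rw [List.getElem_zip] at this
  exact certOK_sound this x y

/-- Looks up the half-planes of an encoded certificate. -/
def expand (P : List (List (ℤ × ℤ × ℤ))) (c : List ℕ) : List (ℕ × ℤ × ℤ × ℤ) :=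
  (ntrip c).map fun t => (t.1, (P.getD t.2.1 []).getD t.2.2 (0, 0, 0))

lemma witsR_ok : witsOK polysR facets (zpair witR0) = true := by decide +kernel

lemma certsR_ok : certsOK polysR nonfaces (certR0.map (expand polysR)) = true := by
  decide +kernel

/-- The facets and nonfaces on the first 17 indices. -/
def facets17 : List (List ℕ) := facets.filter fun F => F.all fun n => n < 17

/-- The nonfaces on the first 17 indices. -/
def nonfaces17 : List (List ℕ) := nonfaces.filter fun F => F.all fun n => n < 17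

/-- The certificates for these nonfaces. -/
def certC17 : List (List (ℕ × ℤ × ℤ × ℤ)) :=
  (certC0.filter fun c => !c.isEmpty).map (expand polysC)

lemma witsC_ok : witsOK polysC facets17 (zpair witC0) = true := by decide +kernel

lemma certsC_ok : certsOK polysC nonfaces17 certC17 = true := by decide +kernel

end Pool.Agent.H46.Cur
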