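import Mathlib

/-!
Definitions for problem MP_ce7ff6_co: nerves of convex sets, representability and
convex union representability of simplicial complexes.
-/

namespace Pool.Agent.H46.Cur

/-- The nerve of the sets `U 0, ..., U (n-1)` in `ℝ^d`: a nonempty index set `σ` belongs to
it when the sets `U i`, `i ∈ σ`, have a common point, and the empty index set belongs to it
when the convex hull of the union of all the sets is nonempty. -/
def nerve {n d : ℕ} (U : Fin n → Set (EuclideanSpace ℝ (Fin d))) : Set (Finset (Fin n)) :=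
  {σ | (σ.Nonempty → (⋂ i ∈ σ, U i).Nonempty) ∧
    (σ = ∅ → (convexHull ℝ (⋃ i, U i)).Nonempty)}

/-- `Δ` is a simplicial complex on the ground set `Fin n`: it contains the empty set and is
closed under taking subsets. -/
def IsComplex {n : ℕ} (Δ : Set (Finset (Fin n))) : Prop :=
  ∅ ∈ Δ ∧ ∀ σ ∈ Δ, ∀ τ, τ ⊆ σ → τ ∈ Δ

/-- `Δ` is `d`-representable: it is the nerve of convex sets in `ℝ^d`. -/
def Representable {n : ℕ} (d : ℕ) (Δ : Set (Finset (Fin n))) : Prop :=
  ∃ U : Fin n → Set (EuclideanSpace ℝ (Fin d)), (∀ i, Convex ℝ (U i)) ∧ nerve U = Δ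

/-- `Δ` is `d`-convex union representable: it is the nerve of convex open sets in `ℝ^d`
whose union is convex and open. -/
def UnionRepresentable {n : ℕ} (d : ℕ) (Δ : Set (Finset (Fin n))) : Prop :=
  ∃ U : Fin n → Set (EuclideanSpace ℝ (Fin d)), (∀ i, Convex ℝ (U i) ∧ IsOpen (U i)) ∧
    Convex ℝ (⋃ i, U i) ∧ IsOpen (⋃ i, U i) ∧ nerve U = Δ

end Pool.Agent.H46.Cur
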