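import Pool.Agent.H46.Cur.Plane

/-!
The real number inequality behind the obstruction, and the closing argument around the
vertex `Y`.
-/

namespace Pool.Agent.H46.Cur

lemma sgn_aux {a b c : ℝ} (hb : 0 < b) (h : a * b = c) (hc : 0 < c) : 0 < a :=
  (pos_iff_pos_of_mul_pos (h ▸ hc)).mpr hb

/-- The Pappus type inequality, oriented version. -/
lemma pappus_aux {p q r s t u w g2A g3X g4X g1a g2Y g3a g4c g5Y g4A g1Y g5A g1c g4Z g5C g6c g3Z
    g6Y g3C g6a g2C : ℝ} (hs : 0 < s)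
    (E1 : -q * g2A = p * g3X) (E2 : p * g4X = r * g1a) (E3 : s * g2Y = -r * g3a)
    (E4 : -t * g4c = s * g5Y) (E5 : q * g4A = s * g1Y) (E6 : q * g5A = t * g1c)
    (E7 : w * g4Z = -u * g5C) (E8 : t * g6c = w * g3Z) (E9 : s * g6Y = u * g3C)
    (E10 : r * g6a = u * g2C)
    (s2A : g2A < 0) (s3X : g3X < 0) (s4X : 0 < g4X) (s1a : g1a < 0) (s2Y : 0 < g2Y)
    (s3a : g3a < 0) (s4c : g4c < 0) (s5Y : 0 < g5Y) (s1Y : 0 < g1Y) (s1c : 0 < g1c)
    (s4Z : g4Z < 0) (s5C : g5C < 0) (s6c : 0 < g6c) (s3Z : 0 < g3Z) (s6Y : g6Y < 0)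
    (s6a : g6a < 0) (hb : g1a * g6c < g6a * g1c) (hY : g4X * g3Z < g3X * g4Z) :
    0 < g4A ∧ 0 < g3C ∧ 0 < g2C ∧ 0 < g5A ∧ g2C * g5A < g2A * g5C := by
  have hr : 0 < r := sgn_aux (neg_pos.mpr s3a) (by linear_combination -E3 : r * -g3a = s * g2Y)
    (mul_pos hs s2Y)
  have ht : 0 < t := sgn_aux (neg_pos.mpr s4c) (by linear_combination E4 : t * -g4c = s * g5Y)
    (mul_pos hs s5Y)
  have hp : 0 < -p := sgn_aux s4X (by linear_combination -E2 : -p * g4X = r * -g1a)
    (mul_pos hr (neg_pos.mpr s1a))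
  have hq : 0 < q := sgn_aux (neg_pos.mpr s2A) (by linear_combination E1 :
    q * -g2A = -p * -g3X) (mul_pos hp (neg_pos.mpr s3X))
  have hw : 0 < w := sgn_aux s3Z (by linear_combination -E8 : w * g3Z = t * g6c)
    (mul_pos ht s6c)
  have hu : 0 < -u := sgn_aux (neg_pos.mpr s5C) (by linear_combination E7 :
    -u * -g5C = w * -g4Z) (mul_pos hw (neg_pos.mpr s4Z))
  have h4A : 0 < g4A := sgn_aux hq (by linear_combination E5 : g4A * q = s * g1Y)
    (mul_pos hs s1Y)
  have h5A : 0 < g5A := sgn_aux hq (by linear_combination E6 : g5A * q = t * g1c)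
    (mul_pos ht s1c)
  have h3C : 0 < g3C := sgn_aux hu (by linear_combination E9 : g3C * -u = s * -g6Y)
    (mul_pos hs (neg_pos.mpr s6Y))
  have h2C : 0 < g2C := sgn_aux hu (by linear_combination E10 : g2C * -u = r * -g6a)
    (mul_pos hr (neg_pos.mpr s6a))
  refine ⟨h4A, h3C, h2C, h5A, ?_⟩
  have hqu : 0 < q * (-u) := mul_pos hq hu
  have hpw : 0 < (-p) * w := mul_pos hp hw
  have hrt : 0 < r * t := mul_pos hr ht
  have e1 : (q * (-u)) * (g2A * g5C) = ((-p) * w) * (g3X * g4Z) := by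
    have a1 : q * g2A = -p * g3X := by linear_combination -E1
    have a2 : (-u) * g5C = w * g4Z := by linear_combination -E7
    calc (q * (-u)) * (g2A * g5C) = (q * g2A) * ((-u) * g5C) := by ring
      _ = (-p * g3X) * (w * g4Z) := by rw [a1, a2]
      _ = _ := by ring
  have e2 : (q * (-u)) * (g2C * g5A) = (r * t) * (-(g6a * g1c)) := by
    calc (q * (-u)) * (g2C * g5A) = -((q * g5A) * (u * g2C)) := by ring
      _ = -((t * g1c) * (r * g6a)) := by rw [E6, E10]
      _ = _ := by ring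
  have e3 : ((-p) * w) * (g4X * g3Z) = (r * t) * (-(g1a * g6c)) := by
    calc ((-p) * w) * (g4X * g3Z) = -((p * g4X) * (w * g3Z)) := by ring
      _ = -((r * g1a) * (t * g6c)) := by rw [E2, E8]
      _ = _ := by ring
  have i1 : ((-p) * w) * (g4X * g3Z) < ((-p) * w) * (g3X * g4Z) :=
    mul_lt_mul_of_pos_left hY hpw
  have i2 : (r * t) * (g1a * g6c) < (r * t) * (g6a * g1c) := mul_lt_mul_of_pos_left hb hrt
  have : (q * (-u)) * (g2C * g5A) < (q * (-u)) * (g2A * g5C) := by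
    rw [e1, e2]; linarith
  exact lt_of_mul_lt_mul_left this hqu.le

/-- The Pappus type inequality. -/
lemma pappus_real {p q r s t u w g2A g3X g4X g1a g2Y g3a g4c g5Y g4A g1Y g5A g1c g4Z g5C g6c g3Z
    g6Y g3C g6a g2C : ℝ} (hs : s ≠ 0)
    (E1 : -q * g2A = p * g3X) (E2 : p * g4X = r * g1a) (E3 : s * g2Y = -r * g3a)
    (E4 : -t * g4c = s * g5Y) (E5 : q * g4A = s * g1Y) (E6 : q * g5A = t * g1c)
    (E7 : w * g4Z = -u * g5C) (E8 : t * g6c = w * g3Z) (E9 : s * g6Y = u * g3C)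
    (E10 : r * g6a = u * g2C)
    (s2A : g2A < 0) (s3X : g3X < 0) (s4X : 0 < g4X) (s1a : g1a < 0) (s2Y : 0 < g2Y)
    (s3a : g3a < 0) (s4c : g4c < 0) (s5Y : 0 < g5Y) (s1Y : 0 < g1Y) (s1c : 0 < g1c)
    (s4Z : g4Z < 0) (s5C : g5C < 0) (s6c : 0 < g6c) (s3Z : 0 < g3Z) (s6Y : g6Y < 0)
    (s6a : g6a < 0) (hb : g1a * g6c < g6a * g1c) (hY : g4X * g3Z < g3X * g4Z) :
    0 < g4A ∧ 0 < g3C ∧ 0 < g2C ∧ 0 < g5A ∧ g2C * g5A < g2A * g5C := by
  rcases lt_or_gt_of_ne hs with h | h
  · exact pappus_aux (p := -p) (q := -q) (r := -r) (s := -s) (t := -t) (u := -u) (w := -w)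
      (neg_pos.mpr h) (by linear_combination -E1) (by linear_combination -E2)
      (by linear_combination -E3) (by linear_combination -E4) (by linear_combination -E5)
      (by linear_combination -E6) (by linear_combination -E7) (by linear_combination -E8)
      (by linear_combination -E9) (by linear_combination -E10) s2A s3X s4X s1a s2Y s3a s4c s5Y
      s1Y s1c s4Z s5C s6c s3Z s6Y s6a hb hY
  · exact pappus_aux h E1 E2 E3 E4 E5 E6 E7 E8 E9 E10 s2A s3X s4X s1a s2Y s3a s4c s5Y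
      s1Y s1c s4Z s5C s6c s3Z s6Y s6a hb hY

/-- If `Y, e₁, e₂` lie in the convex set `A`, `y` does not, `Y` and `y` lie in the convex set `W`
and the segment from `e₁` to `e₂` misses `W`, then the ray from `Y` through `y` does not meet
that segment. -/
lemma ray {A W : Set E2} (hA : Convex ℝ A) (hW : Convex ℝ W) {Y y e1 e2 : E2}
    (hY : Y ∈ A) (hy : y ∉ A) (hYW : Y ∈ W) (hyW : y ∈ W) (h1 : e1 ∈ A) (h2 : e2 ∈ A)
    (hseg : ∀ e ∈ segment ℝ e1 e2, e ∉ W) {l m : ℝ} (hl : 0 ≤ l) (hm : 0 ≤ m)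
    (he : y - Y = l • (e1 - Y) + m • (e2 - Y)) : False := by
  rcases eq_or_lt_of_le (add_nonneg hl hm) with h0 | h0
  · have hl0 : l = 0 := by linarith
    have hm0 : m = 0 := by linarith
    apply hy
    have : y = Y := by
      rw [hl0, hm0, zero_smul, zero_smul, add_zero] at he
      exact sub_eq_zero.mp he
    rwa [this]
  · have hab : l / (l + m) + m / (l + m) = 1 := by field_simp
    have hla : 0 ≤ l / (l + m) := div_nonneg hl h0.le
    have hmb : 0 ≤ m / (l + m) := div_nonneg hm h0.le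
    set e : E2 := (l / (l + m)) • e1 + (m / (l + m)) • e2 with hedef
    have heseg : e ∈ segment ℝ e1 e2 := ⟨_, _, hla, hmb, hab, rfl⟩
    have heA : e ∈ A := hA h1 h2 hla hmb hab
    have hye : y = (1 - (l + m)) • Y + (l + m) • e := by
      have : (l + m) • e = l • e1 + m • e2 := by
        rw [hedef, smul_add, smul_smul, smul_smul]
        congr 2 <;> field_simp
      rw [this, sub_smul, one_smul, add_smul]
      have h' : y = Y + (l • (e1 - Y) + m • (e2 - Y)) := by rw [← he]; abel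
      rw [h', smul_sub, smul_sub]; abel
    rcases le_or_gt (l + m) 1 with h1' | h1'
    · apply hy
      rw [hye]
      exact hA hY heA (by linarith) h0.le (by ring)
    · apply hseg e heseg
      have : e = (1 - 1 / (l + m)) • Y + (1 / (l + m)) • y := by
        rw [hye, smul_add, smul_smul, smul_smul]
        have e1' : 1 / (l + m) * (l + m) = 1 := by field_simp
        rw [e1', one_smul, ← add_assoc, ← add_smul]
        have e2' : 1 - 1 / (l + m) + 1 / (l + m) * (1 - (l + m)) = 0 := by field_simp; ring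
        rw [e2', zero_smul, zero_add]
      rw [this]
      apply hW hYW hyW
      · have : 1 / (l + m) ≤ 1 := by rw [div_le_one h0]; exact h1'.le
        linarith
      · positivity
      · ring

/-- From coordinates to vectors. -/
lemma vec_of_coord {g h : ℝ × ℝ × ℝ} (ho : o g h ≠ 0) {Y y e1 e2 : E2} (hg : G g Y = 0)
    (hh : G h Y = 0) {l m : ℝ} (h1 : G g y = l * G g e1 + m * G g e2)
    (h2 : G h y = l * G h e1 + m * G h e2) : y - Y = l • (e1 - Y) + m • (e2 - Y) := by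
  simp only [G, o] at *
  apply ext2
  · simp only [PiLp.sub_apply, PiLp.add_apply, PiLp.smul_apply, smul_eq_mul]
    apply mul_left_cancel₀ ho
    linear_combination h.2.1 * h1 - g.2.1 * h2 - (1 - l - m) * (h.2.1 * hg - g.2.1 * hh)
  · simp only [PiLp.sub_apply, PiLp.add_apply, PiLp.smul_apply, smul_eq_mul]
    apply mul_left_cancel₀ ho
    linear_combination g.1 * h2 - h.1 * h1 - (1 - l - m) * (g.1 * hh - h.1 * hg)

/-- The four cones spanned by consecutive vectors of the loop cover the plane. -/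
lemma cones {α γ x1 y1 x2 y2 : ℝ} (hα : 0 < α) (hγ : 0 < γ) (hx1 : x1 < 0) (hy1 : 0 < y1)
    (hx2 : x2 < 0) (hy2 : y2 < 0) (u v : ℝ) :
    (∃ l m : ℝ, 0 ≤ l ∧ 0 ≤ m ∧ u = l * 0 + m * x1 ∧ v = l * α + m * y1) ∨
    (∃ l m : ℝ, 0 ≤ l ∧ 0 ≤ m ∧ u = l * x1 + m * x2 ∧ v = l * y1 + m * y2) ∨
    (∃ l m : ℝ, 0 ≤ l ∧ 0 ≤ m ∧ u = l * x2 + m * γ ∧ v = l * y2 + m * 0) ∨
    (∃ l m : ℝ, 0 ≤ l ∧ 0 ≤ m ∧ u = l * γ + m * 0 ∧ v = l * 0 + m * α) := by
  have hx1' : x1 ≠ 0 := hx1.ne
  have hy2' : y2 ≠ 0 := hy2.ne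
  by_cases c1 : u ≤ 0 ∧ u * y1 / x1 ≤ v
  · left
    refine ⟨(v - u * y1 / x1) / α, u / x1, div_nonneg (by linarith [c1.2]) hα.le,
      div_nonneg_of_nonpos c1.1 hx1.le, ?_, ?_⟩
    · field_simp; ring
    · field_simp; ring
  by_cases c2 : v ≤ 0 ∧ v * x2 / y2 ≤ u
  · right; right; left
    refine ⟨v / y2, (u - v * x2 / y2) / γ, div_nonneg_of_nonpos c2.1 hy2.le,
      div_nonneg (by linarith [c2.2]) hγ.le, ?_, ?_⟩
    · field_simp; ring
    · field_simp; ring
  by_cases c3 : 0 ≤ u ∧ 0 ≤ v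
  · right; right; right
    exact ⟨u / γ, v / α, div_nonneg c3.1 hγ.le, div_nonneg c3.2 hα.le, by field_simp; ring,
      by field_simp; ring⟩
  · right; left
    have hdet : 0 < x1 * y2 - x2 * y1 := by nlinarith [mul_pos_of_neg_of_neg hx1 hy2]
    have hdet' : x1 * y2 - x2 * y1 ≠ 0 := hdet.ne'
    have hu : u ≤ 0 := by
      by_contra hu
      push Not at hu
      have hv : v < 0 := by
        by_contra hv
        exact c3 ⟨hu.le, by linarith⟩
      apply c2
      refine ⟨hv.le, ?_⟩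
      have : v * x2 / y2 ≤ 0 := by
        apply div_nonpos_of_nonneg_of_nonpos _ hy2.le
        nlinarith
      linarith
    have hv : v < u * y1 / x1 := by
      by_contra hv
      exact c1 ⟨hu, by linarith⟩
    have hv' : 0 ≤ x1 * v - y1 * u := by
      have := (lt_div_iff_of_neg hx1).mp hv
      nlinarith
    have hu' : 0 ≤ u * y2 - v * x2 := by
      rcases le_or_gt v 0 with h | h
      · have : u < v * x2 / y2 := by
          by_contra hh
          exact c2 ⟨h, by linarith⟩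
        have := (lt_div_iff_of_neg hy2).mp this
        linarith
      · nlinarith [mul_nonneg_of_nonpos_of_nonpos hu hy2.le]
    refine ⟨(u * y2 - v * x2) / (x1 * y2 - x2 * y1), (x1 * v - y1 * u) / (x1 * y2 - x2 * y1),
      div_nonneg hu' hdet.le, div_nonneg hv' hdet.le, ?_, ?_⟩
    · rw [div_mul_eq_mul_div, div_mul_eq_mul_div, ← add_div, eq_div_iff hdet']; ring
    · rw [div_mul_eq_mul_div, div_mul_eq_mul_div, ← add_div, eq_div_iff hdet']; ring

end Pool.Agent.H46.Cur
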