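import Pool.Agent.H46.Cur.Rep
import Pool.Agent.H46.Cur.Pappus

/-!
The complex has no convex union representation in the plane.
-/

namespace Pool.Agent.H46.Cur

lemma facets_lt : ∀ F ∈ facets, ∀ n ∈ F, n < 19 := by decide +kernel

/-- Core of the obstruction, for sets indexed by natural numbers. -/
lemma obstruction (V : ℕ → Set E2) (hc : ∀ n < 19, Convex ℝ (V n)) (ho : ∀ n < 19, IsOpen (V n))
    (hf : ∀ F ∈ facets, ∃ p, ∀ n ∈ F, p ∈ V n)
    (hd : ∀ m < 19, ∀ n < 19, m ≠ n → (∀ F ∈ facets, ¬ (m ∈ F ∧ n ∈ F)) → Disjoint (V m) (V n))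
    (hu : Convex ℝ (⋃ n < 19, V n)) : False := by
  -- the set of all other sets
  set O : Set E2 := ⋃ n ∈ {n : ℕ | n < 17 ∧ n ≠ 9}, V n with hO
  have hOopen : IsOpen O := isOpen_biUnion fun n hn => ho n (by have := hn.1; omega)
  have hTopen : IsOpen (V 17 ∪ V 18) := (ho 17 (by norm_num)).union (ho 18 (by norm_num))
  have hmemO : ∀ n, n < 17 → n ≠ 9 → V n ⊆ O := fun n h1 h2 =>
    Set.subset_biUnion_of_mem (u := V) (show n ∈ {n : ℕ | n < 17 ∧ n ≠ 9} from ⟨h1, h2⟩)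
  have hOT : Disjoint O (V 17 ∪ V 18) := by
    rw [Set.disjoint_left]
    intro p hp hp'
    simp only [hO, Set.mem_iUnion] at hp
    obtain ⟨n, ⟨hn1, hn2⟩, hn⟩ := hp
    have t17 : ∀ n < 17, n ≠ 9 → ∀ F ∈ facets, ¬ (n ∈ F ∧ 17 ∈ F) := by decide +kernel
    have t18 : ∀ n < 17, ∀ F ∈ facets, ¬ (n ∈ F ∧ 18 ∈ F) := by decide +kernel
    rcases hp' with h | h
    · exact Set.disjoint_left.mp (hd n (by omega) 17 (by norm_num) (by omega)
        (t17 n hn1 hn2)) hn h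
    · exact Set.disjoint_left.mp (hd n (by omega) 18 (by norm_num) (by omega)
        (t18 n hn1)) hn h
  have hall : (⋃ n < 19, V n) = V 9 ∪ O ∪ (V 17 ∪ V 18) := by
    ext p
    simp only [Set.mem_iUnion, Set.mem_union, hO]
    constructor
    · rintro ⟨n, hn, hp⟩
      by_cases h9 : n = 9
      · subst h9; exact Or.inl (Or.inl hp)
      by_cases h17 : n = 17
      · subst h17; exact Or.inr (Or.inl hp)
      by_cases h18 : n = 18
      · subst h18; exact Or.inr (Or.inr hp)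
      · exact Or.inl (Or.inr ⟨n, ⟨by omega, h9⟩, hp⟩)
    · rintro ((hp | ⟨n, ⟨hn1, -⟩, hp⟩) | (hp | hp))
      · exact ⟨9, by norm_num, hp⟩
      · exact ⟨n, by omega, hp⟩
      · exact ⟨17, by norm_num, hp⟩
      · exact ⟨18, by norm_num, hp⟩
  -- the two convex unions
  have hA : Convex ℝ (O ∪ V 9) := by
    apply convex_union (hc 9 (by norm_num)) hOopen hTopen hOT
    rwa [← hall]
  have hW : Convex ℝ ((V 17 ∪ V 18) ∪ V 9) := by
    apply convex_union (hc 9 (by norm_num)) hTopen hOopen hOT.symm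
    have : V 9 ∪ (V 17 ∪ V 18) ∪ O = V 9 ∪ O ∪ (V 17 ∪ V 18) := by
      ext p; simp only [Set.mem_union]; tauto
    rwa [this, ← hall]
  set A : Set E2 := O ∪ V 9 with hAdef
  set W : Set E2 := (V 17 ∪ V 18) ∪ V 9 with hWdef
  have hWopen : IsOpen W := hTopen.union (ho 9 (by norm_num))
  have hVA : ∀ n, n < 17 → V n ⊆ A := by
    intro n hn
    by_cases h : n = 9
    · subst h; exact Set.subset_union_right
    · exact (hmemO n hn h).trans Set.subset_union_left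
  have h9W : V 9 ⊆ W := Set.subset_union_right
  -- W is disjoint from 8, 10, 14
  have hWd : ∀ n, n < 17 → n ≠ 9 → (∀ F ∈ facets, ¬ (9 ∈ F ∧ n ∈ F)) → Disjoint W (V n) := by
    intro n h1 h2 h3
    rw [hWdef, Set.disjoint_union_left]
    exact ⟨(hOT.mono_left (hmemO n h1 h2)).symm, hd 9 (by norm_num) n (by omega) h2.symm h3⟩
  have dW8 : Disjoint W (V 8) := hWd 8 (by norm_num) (by norm_num) (by decide +kernel)
  have dW10 : Disjoint W (V 10) := hWd 10 (by norm_num) (by norm_num) (by decide +kernel)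
  have dW14 : Disjoint W (V 14) := hWd 14 (by norm_num) (by norm_num) (by decide +kernel)
  have d01 : Disjoint (V 0) (V 1) :=
    hd 0 (by norm_num) 1 (by norm_num) (by norm_num) (by decide +kernel)
  have d23 : Disjoint (V 2) (V 3) :=
    hd 2 (by norm_num) 3 (by norm_num) (by norm_num) (by decide +kernel)
  have d45 : Disjoint (V 4) (V 5) :=
    hd 4 (by norm_num) 5 (by norm_num) (by norm_num) (by decide +kernel)
  have d67 : Disjoint (V 6) (V 7) :=
    hd 6 (by norm_num) 7 (by norm_num) (by norm_num) (by decide +kernel)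
  have dSY : Disjoint (V 11) (V 12) :=
    hd 11 (by norm_num) 12 (by norm_num) (by norm_num) (by decide +kernel)
  have dSM : Disjoint (V 11) (V 13) :=
    hd 11 (by norm_num) 13 (by norm_num) (by norm_num) (by decide +kernel)
  -- the point y
  obtain ⟨y, hy⟩ := hf [17, 18] (by decide)
  have hy17 : y ∈ V 17 := hy 17 (by decide)
  have hy18 : y ∈ V 18 := hy 18 (by decide)
  have hyW : y ∈ W := Or.inl (Or.inl hy17)
  have hyA : y ∉ A := by
    rintro (h | h)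
    · exact Set.disjoint_left.mp hOT h (Or.inl hy17)
    · exact Set.disjoint_left.mp (hd 9 (by norm_num) 18 (by norm_num) (by norm_num)
        (by decide +kernel)) h hy18
  -- separating functionals
  obtain ⟨G1, p1, n1⟩ := sep (hc 0 (by norm_num)) (ho 0 (by norm_num)) (hc 1 (by norm_num))
    (ho 1 (by norm_num)) d01
  obtain ⟨G3, p3, n3⟩ := sep (hc 2 (by norm_num)) (ho 2 (by norm_num)) (hc 3 (by norm_num))
    (ho 3 (by norm_num)) d23
  obtain ⟨G4, p4, n4⟩ := sep (hc 4 (by norm_num)) (ho 4 (by norm_num)) (hc 5 (by norm_num))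
    (ho 5 (by norm_num)) d45
  obtain ⟨G6, p6, n6⟩ := sep (hc 6 (by norm_num)) (ho 6 (by norm_num)) (hc 7 (by norm_num))
    (ho 7 (by norm_num)) d67
  obtain ⟨G2, p2, n2⟩ := sep hW hWopen (hc 8 (by norm_num)) (ho 8 (by norm_num)) dW8
  obtain ⟨G5, p5, n5⟩ := sep hW hWopen (hc 10 (by norm_num)) (ho 10 (by norm_num)) dW10
  -- the witness points
  obtain ⟨f0, m0⟩ := hf [0, 3, 5, 6, 10, 13, 14, 15, 16] (by decide)
  obtain ⟨f1, m1⟩ := hf [1, 3, 4, 7, 8, 13, 14, 15, 16] (by decide)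
  obtain ⟨f2, m2⟩ := hf [0, 2, 4, 7, 9, 12, 15, 16] (by decide)
  obtain ⟨f3, m3⟩ := hf [0, 2, 5, 6, 9, 11, 15, 16] (by decide)
  obtain ⟨f4, m4⟩ := hf [0, 2, 5, 6, 9, 13, 15, 16] (by decide)
  obtain ⟨f5, m5⟩ := hf [0, 2, 5, 6, 10, 13, 15, 16] (by decide)
  obtain ⟨f6, m6⟩ := hf [0, 2, 5, 7, 9, 11, 15, 16] (by decide)
  obtain ⟨f7, m7⟩ := hf [0, 2, 5, 7, 9, 12, 15, 16] (by decide)
  obtain ⟨f8, m8⟩ := hf [0, 3, 4, 7, 9, 11, 15, 16] (by decide)
  obtain ⟨f9, m9⟩ := hf [0, 3, 4, 7, 9, 12, 15, 16] (by decide)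
  obtain ⟨f10, m10⟩ := hf [0, 3, 5, 6, 9, 11, 15, 16] (by decide)
  obtain ⟨f11, m11⟩ := hf [0, 3, 5, 6, 9, 13, 15, 16] (by decide)
  obtain ⟨f12, m12⟩ := hf [0, 3, 5, 7, 9, 11, 15, 16] (by decide)
  obtain ⟨f13, m13⟩ := hf [0, 3, 5, 7, 9, 12, 15, 16] (by decide)
  obtain ⟨f14, m14⟩ := hf [1, 3, 4, 7, 9, 11, 15, 16] (by decide)
  obtain ⟨f15, m15⟩ := hf [1, 3, 4, 7, 9, 13, 15, 16] (by decide)
  obtain ⟨f16, m16⟩ := hf [1, 3, 5, 6, 9, 11, 15, 16] (by decide)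
  obtain ⟨f17, m17⟩ := hf [1, 3, 5, 6, 9, 13, 15, 16] (by decide)
  obtain ⟨f18, m18⟩ := hf [1, 3, 5, 7, 8, 13, 15, 16] (by decide)
  obtain ⟨f19, m19⟩ := hf [1, 3, 5, 7, 9, 11, 15, 16] (by decide)
  obtain ⟨f20, m20⟩ := hf [1, 3, 5, 7, 9, 13, 15, 16] (by decide)
  obtain ⟨f21, m21⟩ := hf [0, 3, 4, 8, 11, 15, 16] (by decide)
  obtain ⟨f22, m22⟩ := hf [1, 3, 4, 8, 11, 15, 16] (by decide)
  obtain ⟨f23, m23⟩ := hf [2, 5, 6, 10, 11, 15, 16] (by decide)
  obtain ⟨f24, m24⟩ := hf [2, 5, 7, 10, 11, 15, 16] (by decide)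
  obtain ⟨f25, m25⟩ := hf [0, 2, 8, 15] (by decide)
  obtain ⟨f26, m26⟩ := hf [1, 2, 8, 15] (by decide)
  obtain ⟨f27, m27⟩ := hf [4, 6, 10, 16] (by decide)
  obtain ⟨f28, m28⟩ := hf [4, 7, 10, 16] (by decide)
  -- the crossing points
  obtain ⟨pA, A1, A3, kA⟩ := cross (g := G1) (h := G3)
    (p1 _ (m25 0 (by decide))) (p3 _ (m25 2 (by decide)))
    (p1 _ (m21 0 (by decide))) (n3 _ (m21 3 (by decide)))
    (n1 _ (m26 1 (by decide))) (p3 _ (m26 2 (by decide)))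
    (n1 _ (m22 1 (by decide))) (n3 _ (m22 3 (by decide)))
  obtain ⟨pC, C4, C6, kC⟩ := cross (g := G4) (h := G6)
    (p4 _ (m27 4 (by decide))) (p6 _ (m27 6 (by decide)))
    (p4 _ (m28 4 (by decide))) (n6 _ (m28 7 (by decide)))
    (n4 _ (m23 5 (by decide))) (p6 _ (m23 6 (by decide)))
    (n4 _ (m24 5 (by decide))) (n6 _ (m24 7 (by decide)))
  obtain ⟨pa, a2, a4, ka⟩ := cross (g := G2) (h := G4)
    (p2 _ (h9W (m15 9 (by decide)))) (p4 _ (m15 4 (by decide)))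
    (p2 _ (h9W (m20 9 (by decide)))) (n4 _ (m20 5 (by decide)))
    (n2 _ (m1 8 (by decide))) (p4 _ (m1 4 (by decide)))
    (n2 _ (m18 8 (by decide))) (n4 _ (m18 5 (by decide)))
  obtain ⟨pc, c3, c5, kc⟩ := cross (g := G3) (h := G5)
    (p3 _ (m4 2 (by decide))) (p5 _ (h9W (m4 9 (by decide))))
    (p3 _ (m5 2 (by decide))) (n5 _ (m5 10 (by decide)))
    (n3 _ (m11 3 (by decide))) (p5 _ (h9W (m11 9 (by decide))))
    (n3 _ (m0 3 (by decide))) (n5 _ (m0 10 (by decide)))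
  obtain ⟨pX, X1, X2, kX⟩ := cross (g := G1) (h := G2)
    (p1 _ (m8 0 (by decide))) (p2 _ (h9W (m8 9 (by decide))))
    (p1 _ (m21 0 (by decide))) (n2 _ (m21 8 (by decide)))
    (n1 _ (m14 1 (by decide))) (p2 _ (h9W (m14 9 (by decide))))
    (n1 _ (m22 1 (by decide))) (n2 _ (m22 8 (by decide)))
  obtain ⟨pZ, Z5, Z6, kZ⟩ := cross (g := G5) (h := G6)
    (p5 _ (h9W (m3 9 (by decide)))) (p6 _ (m3 6 (by decide)))
    (p5 _ (h9W (m6 9 (by decide)))) (n6 _ (m6 7 (by decide)))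
    (n5 _ (m23 10 (by decide))) (p6 _ (m23 6 (by decide)))
    (n5 _ (m24 10 (by decide))) (n6 _ (m24 7 (by decide)))
  obtain ⟨pb, b1, b6, kb⟩ := cross (g := G1) (h := G6)
    (p1 _ (m10 0 (by decide))) (p6 _ (m10 6 (by decide)))
    (p1 _ (m12 0 (by decide))) (n6 _ (m12 7 (by decide)))
    (n1 _ (m16 1 (by decide))) (p6 _ (m16 6 (by decide)))
    (n1 _ (m19 1 (by decide))) (n6 _ (m19 7 (by decide)))
  obtain ⟨pY, Y3, Y4, kY⟩ := cross (g := G3) (h := G4)
    (p3 _ (m2 2 (by decide))) (p4 _ (m2 4 (by decide)))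
    (p3 _ (m7 2 (by decide))) (n4 _ (m7 5 (by decide)))
    (n3 _ (m9 3 (by decide))) (p4 _ (m9 4 (by decide)))
    (n3 _ (m13 3 (by decide))) (n4 _ (m13 5 (by decide)))
  have o34 : o G3 G4 ≠ 0 := o_ne (p3 _ (m2 2 (by decide))) (p4 _ (m2 4 (by decide)))
    (p3 _ (m7 2 (by decide))) (n4 _ (m7 5 (by decide)))
    (n3 _ (m9 3 (by decide))) (p4 _ (m9 4 (by decide)))
    (n3 _ (m13 3 (by decide))) (n4 _ (m13 5 (by decide)))
  have o16 : o G1 G6 ≠ 0 := o_ne (p1 _ (m10 0 (by decide))) (p6 _ (m10 6 (by decide)))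
    (p1 _ (m12 0 (by decide))) (n6 _ (m12 7 (by decide)))
    (n1 _ (m16 1 (by decide))) (p6 _ (m16 6 (by decide)))
    (n1 _ (m19 1 (by decide))) (n6 _ (m19 7 (by decide)))
  -- memberships of the crossing points
  have A8 : pA ∈ V 8 := kA _ (hc 8 (by norm_num)) 
    (m25 8 (by decide)) (m21 8 (by decide)) (m26 8 (by decide)) (m22 8 (by decide))
  have C10 : pC ∈ V 10 := kC _ (hc 10 (by norm_num)) 
    (m27 10 (by decide)) (m28 10 (by decide)) (m23 10 (by decide)) (m24 10 (by decide))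
  have a113 : pa ∈ V 13 := ka _ (hc 13 (by norm_num)) 
    (m15 13 (by decide)) (m20 13 (by decide)) (m1 13 (by decide)) (m18 13 (by decide))
  have a101 : pa ∈ V 1 := ka _ (hc 1 (by norm_num)) 
    (m15 1 (by decide)) (m20 1 (by decide)) (m1 1 (by decide)) (m18 1 (by decide))
  have a103 : pa ∈ V 3 := ka _ (hc 3 (by norm_num)) 
    (m15 3 (by decide)) (m20 3 (by decide)) (m1 3 (by decide)) (m18 3 (by decide))
  have a107 : pa ∈ V 7 := ka _ (hc 7 (by norm_num)) 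
    (m15 7 (by decide)) (m20 7 (by decide)) (m1 7 (by decide)) (m18 7 (by decide))
  have c113 : pc ∈ V 13 := kc _ (hc 13 (by norm_num)) 
    (m4 13 (by decide)) (m5 13 (by decide)) (m11 13 (by decide)) (m0 13 (by decide))
  have c100 : pc ∈ V 0 := kc _ (hc 0 (by norm_num)) 
    (m4 0 (by decide)) (m5 0 (by decide)) (m11 0 (by decide)) (m0 0 (by decide))
  have c105 : pc ∈ V 5 := kc _ (hc 5 (by norm_num)) 
    (m4 5 (by decide)) (m5 5 (by decide)) (m11 5 (by decide)) (m0 5 (by decide))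
  have c106 : pc ∈ V 6 := kc _ (hc 6 (by norm_num)) 
    (m4 6 (by decide)) (m5 6 (by decide)) (m11 6 (by decide)) (m0 6 (by decide))
  have X111 : pX ∈ V 11 := kX _ (hc 11 (by norm_num)) 
    (m8 11 (by decide)) (m21 11 (by decide)) (m14 11 (by decide)) (m22 11 (by decide))
  have X103 : pX ∈ V 3 := kX _ (hc 3 (by norm_num)) 
    (m8 3 (by decide)) (m21 3 (by decide)) (m14 3 (by decide)) (m22 3 (by decide))
  have X104 : pX ∈ V 4 := kX _ (hc 4 (by norm_num)) 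
    (m8 4 (by decide)) (m21 4 (by decide)) (m14 4 (by decide)) (m22 4 (by decide))
  have Z111 : pZ ∈ V 11 := kZ _ (hc 11 (by norm_num)) 
    (m3 11 (by decide)) (m6 11 (by decide)) (m23 11 (by decide)) (m24 11 (by decide))
  have Z102 : pZ ∈ V 2 := kZ _ (hc 2 (by norm_num)) 
    (m3 2 (by decide)) (m6 2 (by decide)) (m23 2 (by decide)) (m24 2 (by decide))
  have Z105 : pZ ∈ V 5 := kZ _ (hc 5 (by norm_num)) 
    (m3 5 (by decide)) (m6 5 (by decide)) (m23 5 (by decide)) (m24 5 (by decide))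
  have b111 : pb ∈ V 11 := kb _ (hc 11 (by norm_num)) 
    (m10 11 (by decide)) (m12 11 (by decide)) (m16 11 (by decide)) (m19 11 (by decide))
  have Y112 : pY ∈ V 12 := kY _ (hc 12 (by norm_num)) 
    (m2 12 (by decide)) (m7 12 (by decide)) (m9 12 (by decide)) (m13 12 (by decide))
  have Y109 : pY ∈ V 9 := kY _ (hc 9 (by norm_num)) 
    (m2 9 (by decide)) (m7 9 (by decide)) (m9 9 (by decide)) (m13 9 (by decide))
  have Y100 : pY ∈ V 0 := kY _ (hc 0 (by norm_num)) 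
    (m2 0 (by decide)) (m7 0 (by decide)) (m9 0 (by decide)) (m13 0 (by decide))
  have Y107 : pY ∈ V 7 := kY _ (hc 7 (by norm_num)) 
    (m2 7 (by decide)) (m7 7 (by decide)) (m9 7 (by decide)) (m13 7 (by decide))
  -- the two local inequalities
  have hb : G G1 pa * G G6 pc < G G6 pa * G G1 pc := by
    by_contra hcon
    push Not at hcon
    have q1 : G G1 f17 < 0 := n1 _ (m17 1 (by decide))
    have q6 : 0 < G G6 f17 := p6 _ (m17 6 (by decide))
    have e1 : 0 < G G1 pc * G G6 f17 - G G6 pc * G G1 f17 := by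
      have := mul_pos (p1 _ c100) q6
      have := mul_pos (p6 _ c106) (neg_pos.mpr q1)
      linarith
    have e2 : 0 < G G1 f17 * G G6 pa - G G6 f17 * G G1 pa := by
      have := mul_pos (neg_pos.mpr q1) (neg_pos.mpr (n6 _ a107))
      have := mul_pos q6 (neg_pos.mpr (n1 _ a101))
      linarith
    have e3 : 0 ≤ G G1 pa * G G6 pc - G G6 pa * G G1 pc := by linarith
    have : pb ∈ V 13 := hull3 o16 b1 b6 (hc 13 (by norm_num)) a113 c113 (m17 13 (by decide))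
      e1.le e2.le e3 (by linarith)
    exact Set.disjoint_left.mp dSM b111 this
  have hY : G G4 pX * G G3 pZ < G G3 pX * G G4 pZ := by
    by_contra hcon
    push Not at hcon
    have q3 : G G3 f10 < 0 := n3 _ (m10 3 (by decide))
    have q4 : G G4 f10 < 0 := n4 _ (m10 5 (by decide))
    have e1 : 0 < G G3 pX * G G4 f10 - G G4 pX * G G3 f10 := by
      have := mul_pos (neg_pos.mpr (n3 _ X103)) (neg_pos.mpr q4)
      have := mul_pos (p4 _ X104) (neg_pos.mpr q3)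
      linarith
    have e2 : 0 < G G3 f10 * G G4 pZ - G G4 f10 * G G3 pZ := by
      have := mul_pos (neg_pos.mpr q3) (neg_pos.mpr (n4 _ Z105))
      have := mul_pos (neg_pos.mpr q4) (p3 _ Z102)
      linarith
    have e3 : 0 ≤ G G3 pZ * G G4 pX - G G4 pZ * G G3 pX := by linarith
    have : pY ∈ V 11 := hull3 o34 Y3 Y4 (hc 11 (by norm_num)) Z111 X111 (m10 11 (by decide))
      e1.le e2.le e3 (by linarith)
    exact Set.disjoint_left.mp dSY this Y112
  -- the Pappus type inequality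
  have anti : ∀ s t : ℝ × ℝ × ℝ, o s t = -o t s := by intro s t; simp only [o]; ring
  obtain ⟨g4A, g3C, g2C, g5A, hfin⟩ := pappus_real (p := o G1 G2) (q := o G1 G3) (r := o G2 G4)
    (s := o G3 G4) (t := o G3 G5) (u := o G4 G6) (w := o G5 G6) o34
    (by rw [← anti]; exact cyc A3 A1 X1 X2) (cyc X1 X2 a2 a4)
    (by rw [← anti]; exact cyc Y3 Y4 a4 a2) (by rw [← anti]; exact cyc c5 c3 Y3 Y4)
    (cyc A1 A3 Y3 Y4) (cyc A1 A3 c3 c5) (by rw [← anti]; exact cyc Z5 Z6 C6 C4)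
    (cyc c3 c5 Z5 Z6) (cyc Y3 Y4 C4 C6) (cyc a2 a4 C4 C6)
    (n2 _ A8) (n3 _ X103) (p4 _ X104) (n1 _ a101) (p2 _ (h9W Y109)) (n3 _ a103)
    (n4 _ c105) (p5 _ (h9W Y109)) (p1 _ Y100) (p1 _ c100) (n4 _ Z105) (n5 _ C10)
    (p6 _ c106) (p3 _ Z102) (n6 _ Y107) (n6 _ a107) hb hY
  -- the closing argument
  have YA : pY ∈ A := hVA 9 (by norm_num) Y109
  have YW : pY ∈ W := h9W Y109
  have AA : pA ∈ A := hVA 8 (by norm_num) A8
  have CA : pC ∈ A := hVA 10 (by norm_num) C10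
  have s1A : f1 ∈ A := hVA 14 (by norm_num) (m1 14 (by decide))
  have s2A : f0 ∈ A := hVA 14 (by norm_num) (m0 14 (by decide))
  have miss : ∀ n, n < 19 → Disjoint W (V n) → ∀ e1 ∈ V n, ∀ e2 ∈ V n,
      ∀ e ∈ segment ℝ e1 e2, e ∉ W := by
    intro n hn hdis e1 h1 e2 h2 e he heW
    exact Set.disjoint_left.mp hdis heW ((hc n hn).segment_subset h1 h2 he)
  rcases cones g4A g3C (n3 _ (m1 3 (by decide))) (p4 _ (m1 4 (by decide)))
    (n3 _ (m0 3 (by decide))) (n4 _ (m0 5 (by decide))) (G G3 y) (G G4 y) with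
    ⟨l, m, hl, hm, e1, e2⟩ | ⟨l, m, hl, hm, e1, e2⟩ | ⟨l, m, hl, hm, e1, e2⟩ |
    ⟨l, m, hl, hm, e1, e2⟩
  · refine ray hA hW YA hyA YW hyW AA s1A (miss 8 (by norm_num) dW8 _ A8 _ (m1 8 (by decide)))
      hl hm (vec_of_coord o34 Y3 Y4 ?_ e2)
    rw [A3]; exact e1
  · exact ray hA hW YA hyA YW hyW s1A s2A (miss 14 (by norm_num) dW14 _ (m1 14 (by decide)) _
      (m0 14 (by decide))) hl hm (vec_of_coord o34 Y3 Y4 e1 e2)
  · refine ray hA hW YA hyA YW hyW s2A CA (miss 10 (by norm_num) dW10 _ (m0 10 (by decide)) _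
      C10) hl hm (vec_of_coord o34 Y3 Y4 e1 ?_)
    rw [C4]; exact e2
  · refine ray hA hW YA hyA YW hyW CA AA ?_ hl hm (vec_of_coord o34 Y3 Y4 ?_ ?_)
    · rintro e ⟨a, b, ha, hb', hab, rfl⟩ heW
      have i2 := p2 _ heW
      have i5 := p5 _ heW
      rw [G_comb _ _ _ _ _ hab] at i2 i5
      have s2A' : G G2 pA < 0 := n2 _ A8
      have s5C' : G G5 pC < 0 := n5 _ C10
      have j1 : b * (-(G G2 pA)) < a * G G2 pC := by linarith
      have j2 : a * (-(G G5 pC)) < b * G G5 pA := by linarith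
      have j3 : (b * (-(G G2 pA))) * (a * (-(G G5 pC))) < (a * G G2 pC) * (b * G G5 pA) :=
        mul_lt_mul'' j1 j2 (mul_nonneg hb' (neg_nonneg.mpr s2A'.le))
          (mul_nonneg ha (neg_nonneg.mpr s5C'.le))
      have j4 : (a * b) * (G G2 pC * G G5 pA) ≤ (a * b) * (G G2 pA * G G5 pC) :=
        mul_le_mul_of_nonneg_left hfin.le (mul_nonneg ha hb')
      nlinarith
    · rw [A3]; exact e1
    · rw [C4]; exact e2

theorem Delta_not_unionRepresentable : ¬ UnionRepresentable 2 Delta := by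
  rintro ⟨U, hU, hconv, -, hnerve⟩
  set V : ℕ → Set E2 := fun n => if h : n < 19 then U ⟨n, h⟩ else ∅ with hV
  have hVU : ∀ n (h : n < 19), V n = U ⟨n, h⟩ := by
    intro n h; simp only [hV, dif_pos h]
  apply obstruction V
  · intro n hn; rw [hVU n hn]; exact (hU _).1
  · intro n hn; rw [hVU n hn]; exact (hU _).2
  · intro F hF
    have hlt := facets_lt F hF
    set σ : Finset (Fin 19) := Finset.univ.filter fun i => (i : ℕ) ∈ F with hσ
    have hmem : σ ∈ nerve U := by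
      rw [hnerve]
      exact ⟨F, hF, by simp [hσ]⟩
    have hne : σ.Nonempty := by
      have : ∀ F ∈ facets, ∃ i : Fin 19, (i : ℕ) ∈ F := by decide +kernel
      obtain ⟨i, hi⟩ := this F hF
      exact ⟨i, by simp [hσ, hi]⟩
    obtain ⟨p, hp⟩ := hmem.1 hne
    refine ⟨p, fun n hn => ?_⟩
    rw [hVU n (hlt n hn)]
    simp only [Set.mem_iInter] at hp
    exact hp ⟨n, hlt n hn⟩ (by simp [hσ, hn])
  · intro m hm n hn hmn hno
    rw [hVU m hm, hVU n hn, Set.disjoint_left]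
    intro p hp hp'
    have : ({⟨m, hm⟩, ⟨n, hn⟩} : Finset (Fin 19)) ∈ nerve U := by
      refine ⟨fun _ => ⟨p, by simp [hp, hp']⟩, fun h => ?_⟩
      simp at h
    rw [hnerve] at this
    obtain ⟨F, hF, h⟩ := this
    exact hno F hF ⟨h ⟨m, hm⟩ (by simp), h ⟨n, hn⟩ (by simp)⟩
  · have : (⋃ n < 19, V n) = ⋃ i, U i := by
      ext p
      simp only [Set.mem_iUnion]
      constructor
      · rintro ⟨n, hn, hp⟩
        rw [hVU n hn] at hp
        exact ⟨_, hp⟩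
      · rintro ⟨i, hp⟩
        exact ⟨i, i.2, by rw [hVU i i.2]; exact hp⟩
    rw [this]; exact hconv

end Pool.Agent.H46.Cur
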