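import Mathlib

/-!
Elementary facts on affine functionals and convex sets in the plane, and the Pappus type
inequality behind the obstruction.
-/

namespace Pool.Agent.H46.Cur

/-- The plane. -/
abbrev E2 := EuclideanSpace ℝ (Fin 2)

/-- The affine functional with coefficients `t`. -/
def G (t : ℝ × ℝ × ℝ) (p : E2) : ℝ := t.1 * p 0 + t.2.1 * p 1 + t.2.2

/-- The determinant of the linear parts of two affine functionals. -/
def o (s t : ℝ × ℝ × ℝ) : ℝ := s.1 * t.2.1 - s.2.1 * t.1

lemma G_comb (t : ℝ × ℝ × ℝ) (p q : E2) (a b : ℝ) (h : a + b = 1) :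
    G t (a • p + b • q) = a * G t p + b * G t q := by
  simp only [G, PiLp.add_apply, PiLp.smul_apply, smul_eq_mul]
  linear_combination (-t.2.2) * h

lemma G_comb3 (t : ℝ × ℝ × ℝ) (p q r : E2) (a b c : ℝ) (h : a + b + c = 1) :
    G t (a • p + b • q + c • r) = a * G t p + b * G t q + c * G t r := by
  simp only [G, PiLp.add_apply, PiLp.smul_apply, smul_eq_mul]
  linear_combination (-t.2.2) * h

lemma ext2 {p q : E2} (h0 : p 0 = q 0) (h1 : p 1 = q 1) : p = q := by
  ext i; fin_cases i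
  · exact h0
  · exact h1

/-- Two independent affine functionals separate points. -/
lemma eq_of_G {g h : ℝ × ℝ × ℝ} (ho : o g h ≠ 0) {p q : E2} (h1 : G g p = G g q)
    (h2 : G h p = G h q) : p = q := by
  simp only [G, o] at *
  apply ext2
  · apply mul_left_cancel₀ ho
    linear_combination h.2.1 * h1 - g.2.1 * h2
  · apply mul_left_cancel₀ ho
    linear_combination g.1 * h2 - h.1 * h1

/-- Separation of disjoint open convex sets by an affine functional. -/
lemma sep {s t : Set E2} (hs : Convex ℝ s) (hs' : IsOpen s) (ht : Convex ℝ t) (ht' : IsOpen t)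
    (hd : Disjoint s t) : ∃ g : ℝ × ℝ × ℝ, (∀ p ∈ s, 0 < G g p) ∧ ∀ p ∈ t, G g p < 0 := by
  obtain ⟨f, u, h1, h2⟩ := geometric_hahn_banach_open_open ht ht' hs hs' hd.symm
  have key : ∀ p : E2, f p = f (EuclideanSpace.single 0 1) * p 0 +
      f (EuclideanSpace.single 1 1) * p 1 := by
    intro p
    have : p = p 0 • (EuclideanSpace.single 0 1 : E2) + p 1 • (EuclideanSpace.single 1 1 : E2) := by
      apply ext2 <;> simp
    conv_lhs => rw [this]
    rw [map_add, map_smul, map_smul, smul_eq_mul, smul_eq_mul]; ring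
  refine ⟨(f (EuclideanSpace.single 0 1), f (EuclideanSpace.single 1 1), -u), ?_, ?_⟩
  · intro p hp
    have := h2 p hp
    rw [key] at this
    simp only [G]; linarith
  · intro p hp
    have := h1 p hp
    rw [key] at this
    simp only [G]; linarith

/-- Four points in the four quadrants of two functionals surround a common zero. -/
lemma cross {g h : ℝ × ℝ × ℝ} {p1 p2 p3 p4 : E2}
    (g1 : 0 < G g p1) (h1 : 0 < G h p1) (g2 : 0 < G g p2) (h2 : G h p2 < 0)
    (g3 : G g p3 < 0) (h3 : 0 < G h p3) (g4 : G g p4 < 0) (h4 : G h p4 < 0) :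
    ∃ v : E2, G g v = 0 ∧ G h v = 0 ∧
      ∀ K : Set E2, Convex ℝ K → p1 ∈ K → p2 ∈ K → p3 ∈ K → p4 ∈ K → v ∈ K := by
  -- first point on the segment p1 p2
  obtain ⟨q1, hq1g, hq1h, hq1K⟩ : ∃ q : E2, 0 < G g q ∧ G h q = 0 ∧
      ∀ K : Set E2, Convex ℝ K → p1 ∈ K → p2 ∈ K → q ∈ K := by
    have hd : 0 < G h p1 - G h p2 := by linarith
    have hab : -G h p2 / (G h p1 - G h p2) + G h p1 / (G h p1 - G h p2) = 1 := by
      field_simp; ring
    have ha : 0 < -G h p2 / (G h p1 - G h p2) := div_pos (by linarith) hd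
    have hb : 0 < G h p1 / (G h p1 - G h p2) := div_pos (by linarith) hd
    refine ⟨(-G h p2 / (G h p1 - G h p2)) • p1 + (G h p1 / (G h p1 - G h p2)) • p2, ?_, ?_, ?_⟩
    · rw [G_comb _ _ _ _ _ hab]; positivity
    · rw [G_comb _ _ _ _ _ hab]; field_simp; ring
    · intro K hK k1 k2
      exact hK k1 k2 ha.le hb.le hab
  obtain ⟨q2, hq2g, hq2h, hq2K⟩ : ∃ q : E2, G g q < 0 ∧ G h q = 0 ∧
      ∀ K : Set E2, Convex ℝ K → p3 ∈ K → p4 ∈ K → q ∈ K := by
    have hd : 0 < G h p3 - G h p4 := by linarith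
    have hab : -G h p4 / (G h p3 - G h p4) + G h p3 / (G h p3 - G h p4) = 1 := by
      field_simp; ring
    have ha : 0 < -G h p4 / (G h p3 - G h p4) := div_pos (by linarith) hd
    have hb : 0 < G h p3 / (G h p3 - G h p4) := div_pos (by linarith) hd
    refine ⟨(-G h p4 / (G h p3 - G h p4)) • p3 + (G h p3 / (G h p3 - G h p4)) • p4, ?_, ?_, ?_⟩
    · rw [G_comb _ _ _ _ _ hab]
      have := mul_pos ha (neg_pos.mpr g3)
      have := mul_pos hb (neg_pos.mpr g4)
      nlinarith
    · rw [G_comb _ _ _ _ _ hab]; field_simp; ring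
    · intro K hK k1 k2
      exact hK k1 k2 ha.le hb.le hab
  have hd : 0 < G g q1 - G g q2 := by linarith
  have hab : -G g q2 / (G g q1 - G g q2) + G g q1 / (G g q1 - G g q2) = 1 := by
    field_simp; ring
  have ha : 0 < -G g q2 / (G g q1 - G g q2) := div_pos (by linarith) hd
  have hb : 0 < G g q1 / (G g q1 - G g q2) := div_pos (by linarith) hd
  refine ⟨(-G g q2 / (G g q1 - G g q2)) • q1 + (G g q1 / (G g q1 - G g q2)) • q2, ?_, ?_, ?_⟩
  · rw [G_comb _ _ _ _ _ hab]; field_simp; ring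
  · rw [G_comb _ _ _ _ _ hab, hq1h, hq2h]; ring
  · intro K hK k1 k2 k3 k4
    exact hK (hq1K K hK k1 k2) (hq2K K hK k3 k4) ha.le hb.le hab

/-- Two functionals with points in the four quadrants are independent. -/
lemma o_ne {g h : ℝ × ℝ × ℝ} {p1 p2 p3 p4 : E2}
    (g1 : 0 < G g p1) (h1 : 0 < G h p1) (g2 : 0 < G g p2) (h2 : G h p2 < 0)
    (g3 : G g p3 < 0) (h3 : 0 < G h p3) (g4 : G g p4 < 0) (h4 : G h p4 < 0) : o g h ≠ 0 := by
  intro ho
  have e : (G g p1 - G g p4) * (G h p2 - G h p3) - (G h p1 - G h p4) * (G g p2 - G g p3) =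
      o g h * ((p1 0 - p4 0) * (p2 1 - p3 1) - (p1 1 - p4 1) * (p2 0 - p3 0)) := by
    simp only [G, o]; ring
  rw [ho, zero_mul] at e
  have a1 : 0 < G g p1 - G g p4 := by linarith
  have a2 : G h p2 - G h p3 < 0 := by linarith
  have a3 : 0 < G h p1 - G h p4 := by linarith
  have a4 : 0 < G g p2 - G g p3 := by linarith
  nlinarith [mul_pos a1 (neg_pos.mpr a2), mul_pos a3 a4]

/-- The value of a 3 by 3 determinant computed at two crossing points. -/
lemma cyc {i j k : ℝ × ℝ × ℝ} {v w : E2} (h1 : G i v = 0) (h2 : G j v = 0) (h3 : G j w = 0)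
    (h4 : G k w = 0) : o i j * G k v = o j k * G i w := by
  simp only [G, o] at *
  linear_combination (-(j.1 * k.2.1 - j.2.1 * k.1)) * h1 + (i.1 * k.2.1 - i.2.1 * k.1) * h2 -
    (i.1 * k.2.1 - i.2.1 * k.1) * h3 + (i.1 * j.2.1 - i.2.1 * j.1) * h4

/-- A common zero of two independent functionals lies in every convex set containing three
points whose value vectors surround the origin. -/
lemma hull3 {g h : ℝ × ℝ × ℝ} (ho : o g h ≠ 0) {v x y z : E2} (hg : G g v = 0) (hh : G h v = 0)
    {K : Set E2} (hK : Convex ℝ K) (hx : x ∈ K) (hy : y ∈ K) (hz : z ∈ K)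
    (h1 : 0 ≤ G g y * G h z - G h y * G g z) (h2 : 0 ≤ G g z * G h x - G h z * G g x)
    (h3 : 0 ≤ G g x * G h y - G h x * G g y)
    (hs : 0 < (G g y * G h z - G h y * G g z) + (G g z * G h x - G h z * G g x) +
      (G g x * G h y - G h x * G g y)) : v ∈ K := by
  set a := G g y * G h z - G h y * G g z with ha
  set b := G g z * G h x - G h z * G g x with hb
  set c := G g x * G h y - G h x * G g y with hc
  have hsum : a / (a + b + c) + b / (a + b + c) + c / (a + b + c) = 1 := by
    field_simp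
  have hmem : (a / (a + b + c)) • x + (b / (a + b + c)) • y + (c / (a + b + c)) • z ∈ K := by
    have := hK.sum_mem (t := Finset.univ) (w := ![a / (a + b + c), b / (a + b + c),
      c / (a + b + c)]) (z := ![x, y, z]) ?_ ?_ ?_
    · simpa [Fin.sum_univ_three] using this
    · intro i _
      fin_cases i <;> simp <;> positivity
    · simpa [Fin.sum_univ_three] using hsum
    · intro i _
      fin_cases i <;> simpa
  have : v = (a / (a + b + c)) • x + (b / (a + b + c)) • y + (c / (a + b + c)) • z := by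
    apply eq_of_G ho
    · rw [G_comb3 _ _ _ _ _ _ _ hsum, hg]
      field_simp
      rw [ha, hb, hc]; ring
    · rw [G_comb3 _ _ _ _ _ _ _ hsum, hh]
      field_simp
      rw [ha, hb, hc]; ring
  rw [this]; exact hmem

/-- If `W`, `O`, `S` are sets with convex union, `W` convex and `O`, `S` open and disjoint, then
`O ∪ W` is convex. -/
lemma convex_union {V : Type*} [AddCommGroup V] [Module ℝ V] [TopologicalSpace V]
    [ContinuousAdd V] [ContinuousSMul ℝ V] {W O S : Set V}
    (hW : Convex ℝ W) (hO : IsOpen O) (hS : IsOpen S) (hOS : Disjoint O S)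
    (hu : Convex ℝ (W ∪ O ∪ S)) : Convex ℝ (O ∪ W) := by
  rw [convex_iff_segment_subset]
  intro a ha b hb c hc
  by_contra hcn
  obtain ⟨t, ht, rfl⟩ : ∃ t ∈ Set.Icc (0:ℝ) 1, a + t • (b - a) = c := by
    rw [segment_eq_image'] at hc
    simpa using hc
  set φ : ℝ → V := fun s => a + s • (b - a) with hφ
  have hφc : Continuous φ := by fun_prop
  have hφ0 : φ 0 = a := by simp [hφ]
  have hφ1 : φ 1 = b := by simp [hφ]
  have hall : ∀ s ∈ Set.Icc (0:ℝ) 1, φ s ∈ W ∪ O ∪ S := by
    intro s hs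
    have ha' : a ∈ W ∪ O ∪ S := by
      rcases ha with h | h
      · exact Or.inl (Or.inr h)
      · exact Or.inl (Or.inl h)
    have hb' : b ∈ W ∪ O ∪ S := by
      rcases hb with h | h
      · exact Or.inl (Or.inr h)
      · exact Or.inl (Or.inl h)
    have := hu ha' hb' (sub_nonneg.mpr hs.2) hs.1 (by ring)
    convert this using 1
    simp only [hφ, sub_smul, one_smul, smul_sub]; abel
  have hcS : φ t ∈ S := by
    rcases hall t ht with (h | h) | h
    · exact absurd (Or.inr h) hcn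
    · exact absurd (Or.inl h) hcn
    · exact h
  have hcW : φ t ∉ W := fun h => hcn (Or.inr h)
  have hcO : φ t ∉ O := fun h => hcn (Or.inl h)
  have hWord : ∀ s1 s2, φ s1 ∈ W → φ s2 ∈ W → s1 ≤ t → t ≤ s2 → φ t ∈ W := by
    intro s1 s2 h1 h2 l1 l2
    rcases eq_or_lt_of_le (l1.trans l2) with h | h
    · have : t = s1 := le_antisymm (by linarith) l1
      rw [this]; exact h1
    · have hd : 0 < s2 - s1 := by linarith
      have := hW h1 h2 (a := (s2 - t) / (s2 - s1)) (b := (t - s1) / (s2 - s1))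
        (div_nonneg (by linarith) hd.le) (div_nonneg (by linarith) hd.le)
        (by field_simp; ring)
      convert this using 1
      simp only [hφ, smul_add, smul_smul]
      have e1 : (s2 - t) / (s2 - s1) + (t - s1) / (s2 - s1) = 1 := by field_simp; ring
      have e2 : (s2 - t) / (s2 - s1) * s1 + (t - s1) / (s2 - s1) * s2 = t := by
        field_simp; ring
      calc a + t • (b - a) = ((s2 - t) / (s2 - s1) + (t - s1) / (s2 - s1)) • a +
            ((s2 - t) / (s2 - s1) * s1 + (t - s1) / (s2 - s1) * s2) • (b - a) := by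
              rw [e1, e2, one_smul]
        _ = _ := by
              rw [add_smul, add_smul]; abel
  by_cases hleft : ∃ s ∈ Set.Icc 0 t, φ s ∈ W
  · obtain ⟨s1, hs1, hs1W⟩ := hleft
    have hright : ∀ s ∈ Set.Icc t 1, φ s ∉ W := fun s hs hsW =>
      hcW (hWord s1 s hs1W hsW hs1.2 hs.1)
    have hpc := (isPreconnected_Icc (a := t) (b := (1:ℝ))) (φ ⁻¹' O) (φ ⁻¹' S)
      (hO.preimage hφc) (hS.preimage hφc) ?_ ?_ ?_
    · obtain ⟨s, _, hs1, hs2⟩ := hpc
      exact Set.disjoint_left.mp hOS hs1 hs2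
    · intro s hs
      rcases hall s ⟨ht.1.trans hs.1, hs.2⟩ with (h | h) | h
      · exact absurd h (hright s hs)
      · exact Or.inl h
      · exact Or.inr h
    · refine ⟨1, ⟨ht.2, le_rfl⟩, ?_⟩
      have : φ 1 ∉ W := hright 1 ⟨ht.2, le_rfl⟩
      rw [hφ1] at this
      rcases hb with h | h
      · show φ 1 ∈ O
        rwa [hφ1]
      · exact absurd h this
    · exact ⟨t, ⟨le_rfl, ht.2⟩, hcS⟩
  · push Not at hleft
    have hpc := (isPreconnected_Icc (a := (0:ℝ)) (b := t)) (φ ⁻¹' O) (φ ⁻¹' S)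
      (hO.preimage hφc) (hS.preimage hφc) ?_ ?_ ?_
    · obtain ⟨s, _, hs1, hs2⟩ := hpc
      exact Set.disjoint_left.mp hOS hs1 hs2
    · intro s hs
      rcases hall s ⟨hs.1, hs.2.trans ht.2⟩ with (h | h) | h
      · exact absurd h (hleft s hs)
      · exact Or.inl h
      · exact Or.inr h
    · refine ⟨0, ⟨le_rfl, ht.1⟩, ?_⟩
      have : φ 0 ∉ W := hleft 0 ⟨le_rfl, ht.1⟩
      rw [hφ0] at this
      rcases ha with h | h
      · show φ 0 ∈ O
        rwa [hφ0]
      · exact absurd h this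
    · exact ⟨t, ⟨ht.1, le_rfl⟩, hcS⟩

end Pool.Agent.H46.Cur
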