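import Pool.Agent.H46.Cur.Defs
import Pool.Agent.H46.Cur.Check

/-!
The complex, its planar representation and its convex union representation in space.
-/

namespace Pool.Agent.H46.Cur

/-- The complex: all sets contained in one of the facets. -/
def Delta : Set (Finset (Fin 19)) := {σ | ∃ F ∈ facets, ∀ i ∈ σ, (i : ℕ) ∈ F}

lemma first_facet : [0, 3, 5, 6, 10, 13, 14, 15, 16] ∈ facets := by decide

lemma Delta_complex : IsComplex Delta := by
  refine ⟨⟨_, first_facet, by simp⟩, ?_⟩
  rintro σ ⟨F, hF, h⟩ τ hτ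
  exact ⟨F, hF, fun i hi => h i (hτ hi)⟩

lemma nerve_eq {d : ℕ} (U : Fin 19 → Set (EuclideanSpace ℝ (Fin d)))
    (hF : ∀ F ∈ facets, ∃ p, ∀ i : Fin 19, (i : ℕ) ∈ F → p ∈ U i)
    (hN : ∀ N ∈ nonfaces, ∀ p, ¬ ∀ i : Fin 19, (i : ℕ) ∈ N → p ∈ U i) :
    nerve U = Delta := by
  ext σ
  constructor
  · rintro ⟨h1, -⟩
    rcases σ.eq_empty_or_nonempty with rfl | hne
    · exact ⟨_, first_facet, by simp⟩
    · obtain ⟨p, hp⟩ := h1 hne
      simp only [Set.mem_iInter] at hp
      obtain ⟨F, hF', h⟩ := comb (fun n => ∃ i ∈ σ, (i : ℕ) = n)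
        (by rintro n ⟨i, -, rfl⟩; exact i.2) (by
          intro N hNm hall
          apply hN N hNm p
          intro i hi
          obtain ⟨j, hj, hji⟩ := hall i hi
          have : j = i := Fin.ext hji
          exact this ▸ hp j hj)
      exact ⟨F, hF', fun i hi => h i ⟨i, hi, rfl⟩⟩
  · rintro ⟨F, hFm, h⟩
    refine ⟨fun _ => ?_, fun _ => ?_⟩
    · obtain ⟨p, hp⟩ := hF F hFm
      exact ⟨p, by simpa using fun i hi => hp i (h i hi)⟩
    · obtain ⟨p, hp⟩ := hF _ first_facet
      have : p ∈ U 0 := hp 0 (by simp)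
      exact ⟨p, subset_convexHull _ _ (Set.mem_iUnion.mpr ⟨0, this⟩)⟩

lemma holds_convex {d : ℕ} (a b : Fin d) (h : ℤ × ℤ × ℤ) :
    Convex ℝ {q : EuclideanSpace ℝ (Fin d) | holds h (q a) (q b)} := by
  apply convex_halfSpace_lt (f := fun q : EuclideanSpace ℝ (Fin d) =>
    (h.1 : ℝ) * q a + (h.2.1 : ℝ) * q b)
  constructor
  · intro x y
    simp only [PiLp.add_apply]; ring
  · intro c x
    simp only [PiLp.smul_apply, smul_eq_mul]; ring

lemma holds_open {d : ℕ} (a b : Fin d) (h : ℤ × ℤ × ℤ) :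
    IsOpen {q : EuclideanSpace ℝ (Fin d) | holds h (q a) (q b)} := by
  unfold holds
  apply isOpen_lt <;> fun_prop

lemma inPoly_eq {d : ℕ} (a b : Fin d) (P : List (List (ℤ × ℤ × ℤ))) (n : ℕ) :
    {q : EuclideanSpace ℝ (Fin d) | inPoly P n (q a) (q b)} =
      ⋂ h ∈ {h | h ∈ P.getD n []}, {q | holds h (q a) (q b)} := by
  ext q; simp [inPoly]

lemma inPoly_convex {d : ℕ} (a b : Fin d) (P : List (List (ℤ × ℤ × ℤ))) (n : ℕ) :
    Convex ℝ {q : EuclideanSpace ℝ (Fin d) | inPoly P n (q a) (q b)} := by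
  rw [inPoly_eq]
  exact convex_iInter₂ fun h _ => holds_convex a b h

lemma inPoly_open {d : ℕ} (a b : Fin d) (P : List (List (ℤ × ℤ × ℤ))) (n : ℕ) :
    IsOpen {q : EuclideanSpace ℝ (Fin d) | inPoly P n (q a) (q b)} := by
  rw [inPoly_eq]
  exact (List.finite_toSet _).isOpen_biInter fun h _ => holds_open a b h

theorem Delta_representable : Representable 2 Delta := by
  refine ⟨fun i => {q | inPoly polysR i (q 0) (q 1)}, fun i => inPoly_convex 0 1 _ _, ?_⟩
  apply nerve_eq
  · intro F hF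
    obtain ⟨w, hw⟩ := witsOK_sound witsR_ok hF
    refine ⟨!₂[(w.1 : ℝ), (w.2 : ℝ)], fun i hi => ?_⟩
    have := hw i hi
    simpa using this
  · intro N hN p hp
    apply certsOK_sound certsR_ok hN (p 0) (p 1)
    intro n hn
    have hlt : n < 19 := by
      have : ∀ N ∈ nonfaces, ∀ n ∈ N, n < 19 := by decide
      exact this N hN n hn
    exact hp ⟨n, hlt⟩ hn

/-! ### The spatial family -/

/-- Three-space. -/
abbrev E3 := EuclideanSpace ℝ (Fin 3)

/-- The open region above the paraboloid. -/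
def par : Set E3 := {q | q 0 ^ 2 + q 1 ^ 2 < q 2}

lemma par_convex : Convex ℝ par := by
  intro x hx y hy a b ha hb hab
  simp only [par, Set.mem_ofPred_eq, PiLp.add_apply, PiLp.smul_apply, smul_eq_mul] at *
  have e : ∀ s t : ℝ, (a * s + b * t) ^ 2 ≤ a * s ^ 2 + b * t ^ 2 := by
    intro s t
    have hb' : b = 1 - a := by linarith
    have : a * s ^ 2 + b * t ^ 2 - (a * s + b * t) ^ 2 = a * b * (s - t) ^ 2 := by
      rw [hb']; ring
    have := mul_nonneg (mul_nonneg ha hb) (sq_nonneg (s - t))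
    linarith
  have h0 := e (x 0) (y 0)
  have h1 := e (x 1) (y 1)
  rcases eq_or_lt_of_le ha with h | h
  · have hb1 : b = 1 := by linarith
    subst h; subst hb1
    simpa using hy
  · nlinarith [mul_lt_mul_of_pos_left hx h, mul_le_mul_of_nonneg_left hy.le hb]

lemma par_open : IsOpen par := by
  unfold par
  apply isOpen_lt <;> fun_prop

lemma gt_convex (c : ℝ) : Convex ℝ {q : E3 | c < q 2} := by
  apply convex_halfSpace_gt (f := fun q : E3 => q 2)
  constructor
  · intro x y; simp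
  · intro c x; simp

lemma lt_convex (c : ℝ) : Convex ℝ {q : E3 | q 2 < c} := by
  apply convex_halfSpace_lt (f := fun q : E3 => q 2)
  constructor
  · intro x y; simp
  · intro c x; simp

lemma gt_open (c : ℝ) : IsOpen {q : E3 | c < q 2} := by
  apply isOpen_lt <;> fun_prop

lemma lt_open (c : ℝ) : IsOpen {q : E3 | q 2 < c} := by
  apply isOpen_lt <;> fun_prop

/-- The spatial sets. -/
def U3 (i : Fin 19) : Set E3 :=
  if (i : ℕ) = 18 then par ∩ {q | q 2 < 2}
  else if (i : ℕ) = 17 then (par ∩ {q | 1 < q 2}) ∩ {q | q 2 < 3}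
  else if (i : ℕ) = 9 then ({q | inPoly polysC i (q 0) (q 1)} ∩ par) ∩ {q | 2 < q 2}
  else ({q | inPoly polysC i (q 0) (q 1)} ∩ par) ∩ {q | 3 < q 2}

lemma U3_convex (i : Fin 19) : Convex ℝ (U3 i) := by
  unfold U3
  split_ifs
  · exact par_convex.inter (lt_convex 2)
  · exact (par_convex.inter (gt_convex 1)).inter (lt_convex 3)
  · exact ((inPoly_convex 0 1 _ _).inter par_convex).inter (gt_convex 2)
  · exact ((inPoly_convex 0 1 _ _).inter par_convex).inter (gt_convex 3)

lemma U3_open (i : Fin 19) : IsOpen (U3 i) := by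
  unfold U3
  split_ifs
  · exact par_open.inter (lt_open 2)
  · exact (par_open.inter (gt_open 1)).inter (lt_open 3)
  · exact ((inPoly_open 0 1 _ _).inter par_open).inter (gt_open 2)
  · exact ((inPoly_open 0 1 _ _).inter par_open).inter (gt_open 3)

/-- The frame containing all the sets of the second planar family. -/
def frame : List (ℤ × ℤ × ℤ) := [(0, 1, 11500), (0, -1, 12000), (1, 0, 13000), (-1, 0, 13000)]

lemma frame_mem : ∀ n < 17, ∀ h ∈ frame, h ∈ polysC.getD n [] := by decide +kernel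

/-- The union of the spatial sets. -/
def R3 : Set E3 := {q | ∀ h ∈ frame, holds h (q 0) (q 1)} ∩ par

lemma R3_convex : Convex ℝ R3 := by
  apply Convex.inter _ par_convex
  have : {q : E3 | ∀ h ∈ frame, holds h (q 0) (q 1)} =
      {q : E3 | inPoly [frame] 0 (q 0) (q 1)} := by
    ext q; simp [inPoly]
  rw [this]
  exact inPoly_convex 0 1 _ _

lemma mem_frame_of_small {q : E3} (hp : q ∈ par) (h : q 2 < 4) :
    -2 < q 0 ∧ q 0 < 2 ∧ -2 < q 1 ∧ q 1 < 2 := by
  simp only [par, Set.mem_ofPred_eq] at hp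
  refine ⟨?_, ?_, ?_, ?_⟩ <;> nlinarith [sq_nonneg (q 0), sq_nonneg (q 1)]

lemma frame_iff (x y : ℝ) : (∀ h ∈ frame, holds h x y) ↔
    y < 11500 ∧ -y < 12000 ∧ x < 13000 ∧ -x < 13000 := by
  simp [frame, holds]

lemma polysC9 : ∀ h ∈ polysC.getD 9 [], 2 * (|h.1| + |h.2.1|) < h.2.2 := by decide +kernel

lemma polysC15 : polysC.getD 15 [] = frame ++ [(1, 1, 14000)] := by decide +kernel

lemma polysC16 : polysC.getD 16 [] = frame ++ [(-1, 1, 14000)] := by decide +kernel

lemma in9_of_small {x y : ℝ} (h1 : -2 < x) (h2 : x < 2) (h3 : -2 < y) (h4 : y < 2) :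
    inPoly polysC 9 x y := by
  intro h hh
  have := polysC9 h hh
  have h' : 2 * (|(h.1 : ℝ)| + |(h.2.1 : ℝ)|) < (h.2.2 : ℝ) := by exact_mod_cast this
  have hx : |x| ≤ 2 := abs_le.mpr ⟨h1.le, h2.le⟩
  have hy : |y| ≤ 2 := abs_le.mpr ⟨h3.le, h4.le⟩
  have a1 : (h.1 : ℝ) * x ≤ |(h.1 : ℝ)| * 2 := by
    calc (h.1 : ℝ) * x ≤ |(h.1 : ℝ) * x| := le_abs_self _
      _ = |(h.1 : ℝ)| * |x| := abs_mul _ _
      _ ≤ _ := mul_le_mul_of_nonneg_left hx (abs_nonneg _)
  have a2 : (h.2.1 : ℝ) * y ≤ |(h.2.1 : ℝ)| * 2 := by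
    calc (h.2.1 : ℝ) * y ≤ |(h.2.1 : ℝ) * y| := le_abs_self _
      _ = |(h.2.1 : ℝ)| * |y| := abs_mul _ _
      _ ≤ _ := mul_le_mul_of_nonneg_left hy (abs_nonneg _)
  show (h.1 : ℝ) * x + (h.2.1 : ℝ) * y < (h.2.2 : ℝ)
  linarith

lemma iUnion_U3 : (⋃ i, U3 i) = R3 := by
  ext q
  simp only [Set.mem_iUnion]
  constructor
  · rintro ⟨i, hi⟩
    have small : ∀ {c : ℝ}, c ≤ 4 → q ∈ par → q 2 < c → q ∈ R3 := by
      intro c hc hp hq
      refine ⟨?_, hp⟩
      have := mem_frame_of_small hp (lt_of_lt_of_le hq hc)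
      simp only [Set.mem_ofPred_eq]
      rw [frame_iff]
      refine ⟨?_, ?_, ?_, ?_⟩ <;> linarith [this.1, this.2.1, this.2.2.1, this.2.2.2]
    unfold U3 at hi
    split_ifs at hi with h1 h2 h3
    · exact small (c := 2) (by norm_num) hi.1 hi.2
    · exact small (c := 3) (by norm_num) hi.1.1 hi.2
    · refine ⟨?_, hi.1.2⟩
      intro h hh
      exact hi.1.1 h (frame_mem i (by omega) h hh)
    · refine ⟨?_, hi.1.2⟩
      intro h hh
      exact hi.1.1 h (frame_mem i (by omega) h hh)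
  · rintro ⟨h1, hp⟩
    simp only [Set.mem_ofPred_eq] at h1
    by_cases c1 : q 2 < 2
    · exact ⟨18, by simp [U3, hp, c1]⟩
    by_cases c2 : q 2 < 3
    · refine ⟨17, ?_⟩
      simp only [U3]
      norm_num
      exact ⟨⟨hp, by linarith⟩, c2⟩
    by_cases c3 : q 2 < 4
    · refine ⟨9, ?_⟩
      have := mem_frame_of_small hp c3
      have h9 := in9_of_small this.1 this.2.1 this.2.2.1 this.2.2.2
      simp only [U3]
      norm_num
      exact ⟨⟨h9, hp⟩, by linarith⟩
    · have hf := h1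
      rw [frame_iff] at h1
      by_cases c4 : q 0 + q 1 < 14000
      · refine ⟨15, ?_⟩
        simp only [U3]
        norm_num
        refine ⟨⟨?_, hp⟩, by linarith⟩
        intro h hh
        rw [polysC15] at hh
        rcases List.mem_append.mp hh with h' | h'
        · exact hf h h'
        · simp only [List.mem_singleton] at h'
          subst h'
          simp only [holds]; push_cast; linarith
      · refine ⟨16, ?_⟩
        simp only [U3]
        norm_num
        refine ⟨⟨?_, hp⟩, by linarith⟩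
        intro h hh
        rw [polysC16] at hh
        rcases List.mem_append.mp hh with h' | h'
        · exact hf h h'
        · simp only [List.mem_singleton] at h'
          subst h'
          simp only [holds]; push_cast; linarith [h1.1]

lemma facet_cases : ∀ F ∈ facets, F ∈ facets17 ∨ F = [9, 17] ∨ F = [17, 18] := by
  decide +kernel

lemma facets17_lt : ∀ F ∈ facets17, ∀ n ∈ F, n < 17 := by decide +kernel

lemma nonface_cases : ∀ N ∈ nonfaces, N ∈ nonfaces17 ∨
    (17 ∈ N ∧ ∃ n ∈ N, n < 17 ∧ n ≠ 9) ∨ (18 ∈ N ∧ ∃ n ∈ N, n < 17) := by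
  decide +kernel

lemma nonfaces17_lt : ∀ F ∈ nonfaces17, ∀ n ∈ F, n < 17 := by decide +kernel

lemma U3_gt {i : Fin 19} (hi : (i : ℕ) < 17) {q : E3} (h : q ∈ U3 i) : 2 < q 2 := by
  unfold U3 at h
  rw [if_neg (by omega), if_neg (by omega)] at h
  split_ifs at h
  · exact h.2
  · have := h.2
    simp only [Set.mem_ofPred_eq] at this
    linarith

lemma U3_gt' {i : Fin 19} (hi : (i : ℕ) < 17) (hi' : (i : ℕ) ≠ 9) {q : E3} (h : q ∈ U3 i) :
    3 < q 2 := by
  unfold U3 at h
  rw [if_neg (by omega), if_neg (by omega), if_neg hi'] at h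
  exact h.2

lemma U3_poly {i : Fin 19} (hi : (i : ℕ) < 17) {q : E3} (h : q ∈ U3 i) :
    inPoly polysC i (q 0) (q 1) := by
  unfold U3 at h
  rw [if_neg (by omega), if_neg (by omega)] at h
  split_ifs at h
  · exact h.1.1
  · exact h.1.1

lemma U3_17 {q : E3} (h : q ∈ U3 17) : q 2 < 3 := by
  unfold U3 at h
  norm_num at h
  exact h.2

lemma U3_18 {q : E3} (h : q ∈ U3 18) : q 2 < 2 := by
  unfold U3 at h
  norm_num at h
  exact h.2

theorem Delta_unionRepresentable : UnionRepresentable 3 Delta := by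
  refine ⟨U3, fun i => ⟨U3_convex i, U3_open i⟩, ?_, isOpen_iUnion U3_open, ?_⟩
  · rw [iUnion_U3]; exact R3_convex
  apply nerve_eq
  · intro F hF
    rcases facet_cases F hF with h | rfl | rfl
    · obtain ⟨w, hw⟩ := witsOK_sound witsC_ok h
      refine ⟨!₂[(w.1 : ℝ), (w.2 : ℝ), (w.1 : ℝ) ^ 2 + (w.2 : ℝ) ^ 2 + 4], fun i hi => ?_⟩
      have hlt := facets17_lt F h i hi
      have hp := hw i hi
      unfold U3
      rw [if_neg (by omega), if_neg (by omega)]
      have hz : (0:ℝ) ≤ (w.1 : ℝ) ^ 2 + (w.2 : ℝ) ^ 2 := by positivity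
      split_ifs
      · refine ⟨⟨by simpa using hp, ?_⟩, ?_⟩
        · simp [par]
        · simp only [Set.mem_ofPred_eq]
          simp
          linarith
      · refine ⟨⟨by simpa using hp, ?_⟩, ?_⟩
        · simp [par]
        · simp only [Set.mem_ofPred_eq]
          simp
          linarith
    · refine ⟨!₂[0, 0, 5 / 2], fun i hi => ?_⟩
      have hi' : (i : ℕ) = 9 ∨ (i : ℕ) = 17 := by simpa using hi
      have h9 : inPoly polysC 9 0 0 :=
        in9_of_small (by norm_num) (by norm_num) (by norm_num) (by norm_num)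
      unfold U3
      rcases hi' with h | h
      · rw [if_neg (by omega), if_neg (by omega), if_pos h, h]
        refine ⟨⟨by simpa using h9, ?_⟩, ?_⟩
        · simp [par]
        · simp only [Set.mem_ofPred_eq]
          simp
          norm_num
      · rw [if_neg (by omega), if_pos h]
        refine ⟨⟨?_, ?_⟩, ?_⟩
        · simp [par]
        · simp only [Set.mem_ofPred_eq]
          simp
          norm_num
        · simp only [Set.mem_ofPred_eq]
          simp
          norm_num
    · refine ⟨!₂[0, 0, 3 / 2], fun i hi => ?_⟩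
      have hi' : (i : ℕ) = 17 ∨ (i : ℕ) = 18 := by simpa using hi
      unfold U3
      rcases hi' with h | h
      · rw [if_neg (by omega), if_pos h]
        refine ⟨⟨?_, ?_⟩, ?_⟩
        · simp [par]
        · simp only [Set.mem_ofPred_eq]
          simp
          norm_num
        · simp only [Set.mem_ofPred_eq]
          simp
      · rw [if_pos h]
        refine ⟨?_, ?_⟩
        · simp [par]
        · simp only [Set.mem_ofPred_eq]
          simp
          norm_num
  · intro N hN q hq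
    rcases nonface_cases N hN with h | ⟨h1, n, hn, hn17, hn9⟩ | ⟨h1, n, hn, hn17⟩
    · apply certsOK_sound certsC_ok h (q 0) (q 1)
      intro n hn
      have hlt := nonfaces17_lt N h n hn
      exact U3_poly (i := ⟨n, by omega⟩) hlt (hq ⟨n, by omega⟩ hn)
    · have a := U3_17 (hq 17 h1)
      have b := U3_gt' (i := ⟨n, by omega⟩) hn17 hn9 (hq ⟨n, by omega⟩ hn)
      linarith
    · have a := U3_18 (hq 18 h1)
      have b := U3_gt (i := ⟨n, by omega⟩) hn17 (hq ⟨n, by omega⟩ hn)
      linarith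

end Pool.Agent.H46.Cur
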